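import Pool.Agent.H242R3.ES.StmtsN
import Pool.Agent.H821R3.ES.P3

set_option autoImplicit false
set_option maxHeartbeats 4000000

open MeasureTheory Finset
open scoped Classical

namespace Pool.Agent.H233R3.ES

open Pool.Agent.H242R3.ES Pool.Agent.H821R3.ES

theorem t : TaskN9 := by
  intro m a b haa hbb hab
  have hba : B b a = B a b := B_comm b a
  set c := B a b with hc
  have hc0 : c ≠ 0 := hab.ne
  let W : Submodule ℝ (LV (m + 1)) := LinearMap.ker (Bl (m + 1) a) ⊓ LinearMap.ker (Bl (m + 1) b)
  have hW : ∀ x, x ∈ W ↔ B a x = 0 ∧ B b x = 0 := by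
    intro x
    simp only [W, Submodule.mem_inf, LinearMap.mem_ker, Bl_apply]
  let q : LV (m + 1) →ₗ[ℝ] LV (m + 1) :=
    LinearMap.id - ((1 / c) • (Bl (m + 1) b).smulRight a) - ((1 / c) • (Bl (m + 1) a).smulRight b)
  have hq : ∀ x, q x = x - (B b x / c) • a - (B a x / c) • b := by
    intro x
    simp only [q, LinearMap.sub_apply, LinearMap.id_apply, LinearMap.smul_apply,
      LinearMap.smulRight_apply, Bl_apply, smul_smul, div_eq_inv_mul, mul_one]
  have hqW : ∀ x, q x ∈ W := by
    intro x
    rw [hW, hq]
    constructor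
    · rw [Bsr, Bsr, Bmr, Bmr, haa, ← hc]
      field_simp
      ring
    · rw [Bsr, Bsr, Bmr, Bmr, hbb, hba]
      field_simp
      ring
  let pr : LV (m + 1) →ₗ[ℝ] W := q.codRestrict W hqW
  have hprv : ∀ x, ((pr x : W) : LV (m + 1)) = q x := fun x => rfl
  have hker : LinearMap.ker pr = Submodule.span ℝ {a, b} := by
    apply le_antisymm
    · intro x hx
      have h1 : q x = 0 := by
        rw [← hprv, LinearMap.mem_ker.1 hx]
        rfl
      rw [hq] at h1
      have h2 : x = (B b x / c) • a + (B a x / c) • b := by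
        rw [sub_sub, sub_eq_zero] at h1
        exact h1
      rw [Submodule.mem_span_pair]
      exact ⟨_, _, h2.symm⟩
    · rw [Submodule.span_le]
      rintro x (rfl | hx)
      · rw [SetLike.mem_coe, LinearMap.mem_ker]
        apply Subtype.ext
        rw [hprv, hq, haa, hba, div_self hc0]
        simp
      · rw [Set.mem_singleton_iff] at hx
        subst hx
        rw [SetLike.mem_coe, LinearMap.mem_ker]
        apply Subtype.ext
        rw [hprv, hq, hbb, ← hc, div_self hc0]
        simp
  have hsurj : Function.Surjective pr := by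
    intro w
    refine ⟨w, ?_⟩
    apply Subtype.ext
    obtain ⟨h1, h2⟩ := (hW w).1 w.2
    rw [hprv, hq, h1, h2]
    simp
  have hE : Module.finrank ℝ (LV (m + 1)) = m + 2 := by
    rw [Module.finrank_fintype_fun_eq_card, Fintype.card_option, Fintype.card_fin]
  have hli : LinearIndependent ℝ ![a, b] := by
    rw [LinearIndependent.pair_iff]
    intro s u hsu
    have h1 : B a (s • a + u • b) = 0 := by
      rw [hsu]
      exact (Bl (m + 1) a).map_zero
    have h2 : B b (s • a + u • b) = 0 := by
      rw [hsu]
      exact (Bl (m + 1) b).map_zero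
    rw [Bar, Bmr, Bmr, haa, ← hc] at h1
    rw [Bar, Bmr, Bmr, hbb, hba] at h2
    constructor
    · have : s * c = 0 := by linarith
      exact (mul_eq_zero.1 this).resolve_right hc0
    · have : u * c = 0 := by linarith
      exact (mul_eq_zero.1 this).resolve_right hc0
  have hk2 : Module.finrank ℝ (LinearMap.ker pr) = 2 := by
    rw [hker]
    have h := finrank_span_eq_card hli
    rw [Fintype.card_fin] at h
    have hr : Set.range ![a, b] = {a, b} := by
      rw [Matrix.range_cons, Matrix.range_cons, Matrix.range_empty, Set.union_empty,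
        Set.singleton_union]
    rw [hr] at h
    exact h
  have hWm : Module.finrank ℝ W = m := by
    have h := LinearMap.finrank_range_add_finrank_ker pr
    rw [LinearMap.range_eq_top.2 hsurj, finrank_top, hk2, hE] at h
    omega
  have htt : B (a + b) (a + b) < 0 := by
    rw [Bar, Bal, Bal, haa, hbb, hba]
    linarith
  let bl : W →ₗ[ℝ] W →ₗ[ℝ] ℝ := (Bl (m + 1)).domRestrict₁₂ W W
  have hbl : ∀ x y : W, bl x y = B (x : LV (m + 1)) y := fun x y => rfl
  obtain ⟨e, he⟩ := iso W bl (fun x y => by rw [hbl, hbl]; exact B_comm _ _)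
    (fun x hx => by
      rw [hbl]
      obtain ⟨h1, h2⟩ := (hW x).1 x.2
      refine pos_of_orth (a + b) x htt ?_ ?_
      · rw [Bal, h1, h2, add_zero]
      · intro h
        exact hx (Subtype.ext h)) m hWm
  refine ⟨e.toLinearMap.comp pr, ?_, ?_, ?_⟩
  · exact e.surjective.comp hsurj
  · rw [LinearEquiv.ker_comp, hker]
  · intro x y
    have h1 : inner ℝ ((e.toLinearMap.comp pr) x) ((e.toLinearMap.comp pr) y) = B (q x) (q y) := by
      have := he (pr x) (pr y)
      rw [hbl] at this
      exact this
    rw [h1, hq, hq]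
    simp only [Bsr, Bmr, Bsl, Bml, haa, hbb, hba, ← hc, B_comm a, B_comm b]
    rw [← B_comm a y, ← B_comm b y, ← B_comm a x, ← B_comm b x]
    field_simp
    ring

end Pool.Agent.H233R3.ES
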